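import Pool.Graph.R_pool_sql_team_seeded_1e53cb71.Helper38K9.SC.Pair
import Pool.Agent.H615.CI.Z6

/-!
# Furstenberg systems of aperiodic multiplicative functions with values `1` and `-1`: the remote past

Let `f` be an aperiodic multiplicative function with values `1` and `-1`, and let `μ` be any of its Furstenberg
systems. The coordinates are independent given the remote past, their conditional means are pairwise orthogonal, and
`μ` is the
Bernoulli measure of independent fair signs if and only if the remote past has no Lebesgue component in its spectrum,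
and if and only if every bounded function of the remote past is approximated by its own translates.
-/

set_option autoImplicit false

namespace Pool.Agent.Results.MP_4a7640_nt.RemotePast

open MeasureTheory Filter Topology Finset

/-- the numbers `-1`, `0`, `1` -/
abbrev Val : Type := ({-1, 0, 1} : Set ℝ)

/-- the space of two-sided sequences -/
abbrev X : Type := ℤ → Val

/-- the `n`-th power of the shift -/
def shift (n : ℤ) (x : X) : X := fun k => x (k + n)

/-- the sequence of the values `f n`, `n ≥ 1`, extended by zero -/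
noncomputable def seq (f : ℕ → Val) : X := fun n => if 1 ≤ n then f n.toNat else ⟨0, by simp⟩

/-- `μ` is a Furstenberg system of `f`: a weak-star limit, along some sequence `N j → ∞`, of the
logarithmic averages of the point masses at the shifts of the sequence of values of `f` -/
def IsFurstenbergSystem (f : ℕ → Val) (μ : Measure X) : Prop :=
  IsProbabilityMeasure μ ∧ ∃ N : ℕ → ℕ, Tendsto N atTop atTop ∧ ∀ φ : X → ℝ, Continuous φ →
    Tendsto (fun j => (1 / Real.log (N j : ℝ)) * ∑ n ∈ Icc 1 (N j), (1 / (n : ℝ)) * φ (shift (n : ℤ) (seq f)))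
      atTop (𝓝 (∫ x, φ x ∂μ))

/-- multiplicative functions with values `1` and `-1` -/
def IsMult (f : ℕ → Val) : Prop := (∀ n : ℕ, 1 ≤ n → (f n : ℝ) ≠ 0) ∧
  ∀ m n : ℕ, 1 ≤ m → 1 ≤ n → Nat.Coprime m n → (f (m * n) : ℝ) = f m * f n

/-- the distance to every Dirichlet character is infinite -/
def Aperiodic (f : ℕ → Val) : Prop := ∀ Q : ℕ, 0 < Q → ∀ χ : DirichletCharacter ℂ Q,
  ¬ Summable (fun p : ℕ => if p.Prime then
    (1 - (((f p : ℝ) : ℂ) * (starRingEnd ℂ) (χ (p : ZMod Q))).re) / (p : ℝ) else 0)

/-- The fair coin. -/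
noncomputable def coin : Measure Val :=
  (1 / 2 : ENNReal) • (Measure.dirac ⟨1, by simp⟩ + Measure.dirac ⟨-1, by simp⟩)

/-- The Bernoulli measure: independent fair signs. -/
noncomputable def fair : Measure X := Measure.infinitePi fun _ : ℤ => coin

/-- The remote past `⋂ σ(x k : k ≤ t)` (for `s = 1`) and the remote future `⋂ σ(x k : k ≥ t)` (for `s = -1`). -/
@[reducible] noncomputable def Remote (s : ℤ) : MeasurableSpace X :=
  ⨅ t : ℤ, cylinderEvents (X := fun _ : ℤ => Val) {k : ℤ | s * k ≤ s * t}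

/-- The conditional mean of the coordinate `x n` given the remote past (future). -/
noncomputable def cmean (μ : Measure X) (s n : ℤ) : X → ℝ := μ[fun x : X => (x n : ℝ) | Remote s]

/-- The factor `𝓐` has no Lebesgue component: no bounded `𝓐`-measurable function `b ≠ 0` is orthogonal to its
translates. -/
def NoLebesgue (μ : Measure X) (𝓐 : MeasurableSpace X) : Prop :=
  ∀ b : X → ℝ, Measurable[𝓐] b → (∀ x, |b x| ≤ 1) →
    (∀ n : ℤ, n ≠ 0 → ∫ x, b (shift n x) * b x ∂μ = 0) → b =ᵐ[μ] 0

/-- Every bounded `𝓐`-measurable function `b` is approximated in `L^1` by its translates `b ∘ T^n`, `n ≠ 0`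
(this holds if `T` is rigid on `𝓐`, if `𝓐` has discrete spectrum, or if `𝓐` is generated by periodic events). -/
def Returns (μ : Measure X) (𝓐 : MeasurableSpace X) : Prop :=
  ∀ b : X → ℝ, Measurable[𝓐] b → (∀ x, |b x| ≤ 1) → ∀ ε : ℝ, 0 < ε →
    ∃ n : ℤ, n ≠ 0 ∧ ∫ x, |b (shift n x) - b x| ∂μ ≤ ε

lemma val_le (z : Val) : |(z : ℝ)| ≤ 1 := by
  have h := z.2
  simp only [Set.mem_insert_iff, Set.mem_singleton_iff] at h
  rcases h with h | h | h <;> rw [h] <;> simp

lemma seq_nat (f : ℕ → Val) (n : ℕ) (hn : 1 ≤ n) : seq f n = f n := by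
  unfold seq
  rw [if_pos (by exact_mod_cast hn), Int.toNat_natCast]

lemma val_pm {f : ℕ → Val} (hf : IsMult f) (n : ℕ) (hn : 1 ≤ n) : (f n : ℝ) = 1 ∨ (f n : ℝ) = -1 := by
  have h := (f n).2
  simp only [Set.mem_insert_iff, Set.mem_singleton_iff] at h
  rcases h with h | h | h
  · exact Or.inr h
  · exact absurd h (hf.1 n hn)
  · exact Or.inl h

/-- the integer valued version -/
noncomputable def gz (f : ℕ → Val) (n : ℕ) : ℤ := if (f n : ℝ) = 1 then 1 else -1

lemma gz_eq {f : ℕ → Val} (hf : IsMult f) (n : ℕ) (hn : 1 ≤ n) : ((gz f n : ℤ) : ℝ) = f n := by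
  unfold gz
  rcases val_pm hf n hn with h | h
  · rw [if_pos h, h]; norm_num
  · rw [if_neg (by rw [h]; norm_num), h]; norm_num

lemma gz_ms {f : ℕ → Val} (hf : IsMult f) : Pool.Agent.R512.P.MS (gz f) := by
  refine ⟨fun n _ => ?_, fun m n hm hn hc => ?_⟩
  · unfold gz
    split_ifs
    · exact Or.inl rfl
    · exact Or.inr rfl
  · have h := hf.2 m n hm hn hc
    rw [← gz_eq hf m hm, ← gz_eq hf n hn, ← gz_eq hf (m * n) (Nat.mul_pos hm hn)] at h
    exact_mod_cast h

lemma gz_real {f : ℕ → Val} (hf : IsMult f) (h : Aperiodic f) :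
    Pool.Agent.R512.G.NoReal (fun n => (gz f n : ℝ)) := by
  intro q χ hq _ hs
  apply h q hq χ
  have h1 : Summable (fun p : Nat.Primes => (fun p : ℕ => if p.Prime then
    (1 - (((f p : ℝ) : ℂ) * (starRingEnd ℂ) (χ (p : ZMod q))).re) / (p : ℝ) else 0) (p : ℕ)) := by
    refine hs.congr fun p => ?_
    simp only
    rw [if_pos p.2, Complex.re_ofReal_mul, Complex.conj_re, gz_eq hf p p.2.one_lt.le]
  have h2 := (Function.Injective.summable_iff (g := fun p : Nat.Primes => (p : ℕ))
    (f := fun p : ℕ => if p.Prime then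
    (1 - (((f p : ℝ) : ℂ) * (starRingEnd ℂ) (χ (p : ZMod q))).re) / (p : ℝ) else 0)
    Subtype.val_injective (fun p hp => by
      rw [if_neg]
      intro hp'
      exact hp ⟨⟨p, hp'⟩, rfl⟩)).1
  exact h2 h1

/-- distinct coordinates are orthogonal -/
lemma ortho {f : ℕ → Val} (hf : IsMult f) (ha : Aperiodic f) {μ : Measure X}
    (hμ : IsFurstenbergSystem f μ) (i j : ℤ) (hij : i ≠ j) : ∫ x : X, (x i : ℝ) * (x j : ℝ) ∂μ = 0 := by
  obtain ⟨hprob, N, hN, hlim⟩ := hμ
  have h1 := Pool.Agent.Helper38K9.SC.pairZ (gz_ms hf) (gz_real hf ha) (fun z => (seq f z : ℝ))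
    (fun z => val_le _) (fun n hn => by
      show ((seq f (n : ℤ) : Val) : ℝ) = gz f n
      rw [seq_nat f n hn, gz_eq hf n hn]) hN i j hij
  have h2 := hlim (fun x => (x i : ℝ) * (x j : ℝ)) (by fun_prop)
  exact tendsto_nhds_unique h2 h1

/-- the coordinates are almost surely signs -/
lemma ae_pm {f : ℕ → Val} (hf : IsMult f) {μ : Measure X} (hμ : IsFurstenbergSystem f μ) (j : ℤ) :
    ∀ᵐ x ∂μ, (x j : ℝ) = 1 ∨ (x j : ℝ) = -1 := by
  obtain ⟨hprob, N, hN, hlim⟩ := hμ
  have hc : Continuous fun x : X => ((x j : ℝ)) ^ 2 := by fun_prop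
  have h2 := hlim _ hc
  obtain ⟨A, hA⟩ : ∃ A : ℤ → ℂ, A = fun z => (((seq f z : ℝ) ^ 2 : ℝ) : ℂ) := ⟨_, rfl⟩
  have hA1 : ∀ z, ‖A z‖ ≤ 1 := fun z => by
    rw [hA]
    simp only
    rw [Complex.norm_real, Real.norm_eq_abs, abs_pow]
    exact pow_le_one₀ (abs_nonneg _) (val_le _)
  have h3 : Tendsto (fun s => ((1 / Real.log (N s : ℝ) : ℝ) : ℂ) *
      ∑ n ∈ Icc 1 (N s), A (n : ℤ) / (n : ℂ)) atTop (𝓝 1) := by
    have h4 := hlim (fun _ => 1) continuous_const
    rw [integral_const, smul_eq_mul, mul_one, probReal_univ] at h4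
    have h5 := (Complex.continuous_ofReal.tendsto (1 : ℝ)).comp h4
    rw [Complex.ofReal_one] at h5
    refine h5.congr fun s => ?_
    simp only [Function.comp_apply]
    push_cast
    congr 1
    apply sum_congr rfl
    intro n hn
    rw [mem_Icc] at hn
    rw [hA]
    simp only
    rw [seq_nat f n hn.1]
    rcases val_pm hf n hn.1 with h | h <;> rw [h] <;> norm_num
  have h4 := Pool.Agent.R512.G.log_lim_shift hN A hA1 j 1 h3
  have h5 := (Complex.continuous_re.tendsto (1 : ℂ)).comp h4
  rw [Complex.one_re] at h5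
  have h6 : Tendsto (fun s => (1 / Real.log (N s : ℝ)) * ∑ n ∈ Icc 1 (N s), (1 / (n : ℝ)) *
      ((shift (n : ℤ) (seq f) j : Val) : ℝ) ^ 2) atTop (𝓝 1) := by
    refine h5.congr fun s => ?_
    simp only [Function.comp_apply]
    have h7 : ((1 / Real.log (N s : ℝ) : ℝ) : ℂ) * ∑ n ∈ Icc 1 (N s), A ((n : ℤ) + j) / (n : ℂ) =
        (((1 / Real.log (N s : ℝ)) * ∑ n ∈ Icc 1 (N s), (1 / (n : ℝ)) *
          ((shift (n : ℤ) (seq f) j : Val) : ℝ) ^ 2 : ℝ) : ℂ) := by
      push_cast
      congr 1
      apply sum_congr rfl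
      intro n _
      rw [hA]
      unfold shift
      simp only
      rw [add_comm (n : ℤ) j]
      push_cast
      ring
    rw [h7, Complex.ofReal_re]
  have h7 : ∫ x : X, (x j : ℝ) ^ 2 ∂μ = 1 := tendsto_nhds_unique h2 h6
  have hb : ∀ x : X, (x j : ℝ) ^ 2 ≤ 1 := fun x => by
    rw [← sq_abs]
    exact pow_le_one₀ (abs_nonneg _) (val_le _)
  have hint : Integrable (fun x : X => (x j : ℝ) ^ 2) μ :=
    Integrable.of_bound hc.measurable.aestronglyMeasurable 1 (Eventually.of_forall fun x => by
      rw [Real.norm_eq_abs, abs_of_nonneg (sq_nonneg _)]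
      exact hb x)
  have h8 : ∫ x : X, (1 - (x j : ℝ) ^ 2) ∂μ = 0 := by
    rw [integral_sub (integrable_const _) hint, h7, integral_const, smul_eq_mul, mul_one,
      probReal_univ, sub_self]
  have h9 := (integral_eq_zero_iff_of_nonneg (fun x => sub_nonneg.2 (hb x))
    ((integrable_const _).sub hint)).1 h8
  filter_upwards [h9] with x hx
  have hx' : 1 - (x j : ℝ) ^ 2 = 0 := hx
  have : ((x j : ℝ) - 1) * ((x j : ℝ) + 1) = 0 := by linarith
  rcases mul_eq_zero.1 this with h | h
  · left; linarith
  · right; linarith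


section transfer

open Pool.Agent.H615.CI

/-- the embedding -/
noncomputable def cc (v : Val) : Fin 1 → ℂ := fun _ => ((v : ℝ) : ℂ)

open Classical in
/-- its left inverse -/
noncomputable def rr (e : Fin 1 → ℂ) : Val :=
  if e 0 = 1 then ⟨1, by simp⟩ else if e 0 = -1 then ⟨-1, by simp⟩ else ⟨0, by simp⟩

lemma rr_cc (v : Val) : rr (cc v) = v := by
  have h := v.2
  simp only [Set.mem_insert_iff, Set.mem_singleton_iff] at h
  unfold rr cc
  rcases h with h | h | h
  · rw [h]
    rw [if_neg (by norm_num), if_pos (by norm_num)]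
    exact Subtype.ext h.symm
  · rw [h]
    rw [if_neg (by norm_num), if_neg (by norm_num)]
    exact Subtype.ext h.symm
  · rw [h]
    rw [if_pos (by norm_num)]
    exact Subtype.ext h.symm

lemma cc_cont : Continuous cc := by
  unfold cc
  fun_prop

lemma rr_meas : Measurable rr := by
  classical
  have h0 : Measurable fun e : Fin 1 → ℂ => e 0 := measurable_pi_apply 0
  unfold rr
  exact Measurable.ite (h0 (measurableSet_singleton 1)) measurable_const
    (Measurable.ite (h0 (measurableSet_singleton (-1))) measurable_const measurable_const)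

/-- the embedding of the sequences -/
noncomputable def io (x : X) : ℤ → Fin 1 → ℂ := fun n => cc (x n)

/-- its left inverse -/
noncomputable def ro (y : ℤ → Fin 1 → ℂ) : X := fun n => rr (y n)

lemma io_cont : Continuous io := continuous_pi fun n => cc_cont.comp (continuous_apply n)

lemma io_meas : Measurable io := measurable_pi_iff.2 fun n => cc_cont.measurable.comp (measurable_pi_apply n)

lemma ro_meas : Measurable ro := measurable_pi_iff.2 fun n => rr_meas.comp (measurable_pi_apply n)

lemma ro_io (x : X) : ro (io x) = x := funext fun n => rr_cc (x n)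

lemma comap_io (S : Set ℤ) : (cylinderEvents (X := fun _ : ℤ => Fin 1 → ℂ) S).comap io =
    cylinderEvents (X := fun _ : ℤ => Val) S := by
  have h0 : (inferInstance : MeasurableSpace (Fin 1 → ℂ)).comap cc = (inferInstance : MeasurableSpace Val) := by
    apply le_antisymm cc_cont.measurable.comap_le
    intro S hS
    refine ⟨rr ⁻¹' S, rr_meas hS, ?_⟩
    rw [← Set.preimage_comp]
    have : rr ∘ cc = id := funext rr_cc
    rw [this]
    rfl
  unfold cylinderEvents
  rw [MeasurableSpace.comap_iSup]
  congr 1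
  funext k
  rw [MeasurableSpace.comap_iSup]
  congr 1
  funext hk
  rw [MeasurableSpace.comap_comp]
  have : (fun σ : ℤ → Fin 1 → ℂ => σ k) ∘ io = cc ∘ fun σ : X => σ k := rfl
  rw [this, ← MeasurableSpace.comap_comp, h0]

lemma ob_io (h : ℤ) (B : Set Val) : ob h (rr ⁻¹' B) ∘ io = ob h B := by
  funext x
  unfold ob
  have h1 : io x ∈ {y : ℤ → Fin 1 → ℂ | y h ∈ rr ⁻¹' B} ↔ x ∈ {y : ℤ → Val | y h ∈ B} := by
    show rr (cc (x h)) ∈ B ↔ x h ∈ B
    rw [rr_cc]
  rw [Function.comp_apply]
  by_cases hx : x ∈ {y : ℤ → Val | y h ∈ B}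
  · rw [Set.indicator_of_mem hx, Set.indicator_of_mem (h1.2 hx)]
  · rw [Set.indicator_of_notMem hx, Set.indicator_of_notMem fun h => hx (h1.1 h)]

lemma rm_io (μ : Measure X) [IsProbabilityMeasure μ] {s : ℤ} (hR : Rm (μ.map io) s) : Rm μ s := by
  have : IsProbabilityMeasure (μ.map io) := Measure.isProbabilityMeasure_map io_meas.aemeasurable
  intro L hL h B hB
  have h1 := hR L hL h (rr ⁻¹' B) (rr_meas hB)
  have e1 := condExp_map' μ io_meas (m' := cylinderEvents (X := fun _ : ℤ => Fin 1 → ℂ) (Q s 1 h))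
    cylinderEvents_le_pi (ob_int (μ.map io) h (rr_meas hB))
  have e2 := condExp_map' μ io_meas (m' := cylinderEvents (X := fun _ : ℤ => Fin 1 → ℂ) (Q s L h))
    cylinderEvents_le_pi (ob_int (μ.map io) h (rr_meas hB))
  rw [comap_io, ob_io] at e1 e2
  have h2 := ae_of_ae_map io_meas.aemeasurable h1
  refine e1.trans (EventuallyEq.trans ?_ e2.symm)
  filter_upwards [h2] with x hx
  exact hx

lemma stat_io (μ : Measure X) [IsProbabilityMeasure μ] (h : Stat (μ.map io)) : Stat μ := by
  intro t
  refine ⟨sh_meas t, ?_⟩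
  have h0 : (μ.map io).map ro = μ := by
    rw [Measure.map_map ro_meas io_meas]
    have : ro ∘ io = id := funext ro_io
    rw [this, Measure.map_id]
  have h1 : (sh t : X → X) ∘ ro = ro ∘ sh t := rfl
  conv_lhs => rw [← h0]
  rw [Measure.map_map (sh_meas t) ro_meas, h1, ← Measure.map_map ro_meas (sh_meas t), (h t).map_eq, h0]

/-- the facts on the remote past -/
lemma facts {f : ℕ → Val} (hf : IsMult f) {μ : Measure X} (hμ : IsFurstenbergSystem f μ) (s : ℤ) :
    Stat μ ∧ Rm μ s := by
  obtain ⟨hprob, N, hN, hlim⟩ := hμ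
  have hprob' : IsProbabilityMeasure (μ.map io) := Measure.isProbabilityMeasure_map io_meas.aemeasurable
  obtain ⟨m, hm, hL⟩ := Pool.Agent.H615.CI.exists_mean (ℓ := 1) (μ := μ.map io) (z := io (seq f)) N hN (by
    intro F hF _
    have h1 := hlim (F ∘ io) (hF.comp io_cont)
    rw [integral_map io_meas.aemeasurable hF.aestronglyMeasurable]
    refine h1.congr fun k => ?_
    rw [one_div, inv_mul_eq_div]
    congr 1
    apply sum_congr rfl
    intro n _
    rw [one_div, inv_mul_eq_div]
    rfl)
  have hz : ∀ n : ℕ, 1 ≤ n → io (seq f) n = (fun n : ℕ => if n = 0 then 0 else cc (f n)) n := by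
    intro n hn
    show cc (seq f n) = if n = 0 then 0 else cc (f n)
    rw [seq_nat f n hn, if_neg (by omega)]
  refine ⟨stat_io μ (Pool.Agent.H615.CI.stat_of_lim hL), rm_io μ (Pool.Agent.H615.CI.rm_all hL hm hz ?_ ?_ s)⟩
  · intro n
    show ‖(if n = 0 then 0 else cc (f n))‖ ≤ 1
    split_ifs
    · simp
    · rw [pi_norm_le_iff_of_nonneg zero_le_one]
      intro i
      show ‖(((f n : ℝ)) : ℂ)‖ ≤ 1
      rw [Complex.norm_real, Real.norm_eq_abs]
      exact val_le _
  · intro a b hab
    show (if a * b = 0 then 0 else cc (f (a * b))) = (if a = 0 then 0 else cc (f a)) * (if b = 0 then 0 else cc (f b))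
    by_cases ha : a = 0
    · simp [ha]
    · by_cases hb : b = 0
      · simp [hb]
      · rw [if_neg (Nat.mul_ne_zero ha hb), if_neg ha, if_neg hb]
        funext i
        show (((f (a * b) : ℝ)) : ℂ) = ((f a : ℝ) : ℂ) * ((f b : ℝ) : ℂ)
        rw [hf.2 a b (by omega) (by omega) hab]
        push_cast
        rfl

end transfer

section main

open Pool.Agent.H615.CI

/-- the two signs -/
def one : Val := ⟨1, by simp⟩

/-- the two signs -/
def mone : Val := ⟨-1, by simp⟩

lemma coord (n : ℤ) (x : X) : (x n : ℝ) = ob n {one} x - ob n {mone} x := by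
  unfold ob
  have h := (x n).2
  simp only [Set.mem_insert_iff, Set.mem_singleton_iff] at h
  rcases h with h | h | h
  · have h1 : x ∉ {y : ℤ → Val | y n ∈ ({one} : Set Val)} := by
      intro h2
      have h3 : x n = one := h2
      rw [h3] at h
      unfold one at h
      norm_num at h
    have h2 : x ∈ {y : ℤ → Val | y n ∈ ({mone} : Set Val)} := Subtype.ext h
    rw [Set.indicator_of_notMem h1, Set.indicator_of_mem h2, h]
    norm_num
  · have h1 : x ∉ {y : ℤ → Val | y n ∈ ({one} : Set Val)} := by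
      intro h2
      have h3 : x n = one := h2
      rw [h3] at h
      unfold one at h
      norm_num at h
    have h2 : x ∉ {y : ℤ → Val | y n ∈ ({mone} : Set Val)} := by
      intro h2
      have h3 : x n = mone := h2
      rw [h3] at h
      unfold mone at h
      norm_num at h
    rw [Set.indicator_of_notMem h1, Set.indicator_of_notMem h2, h]
    norm_num
  · have h1 : x ∉ {y : ℤ → Val | y n ∈ ({mone} : Set Val)} := by
      intro h2
      have h3 : x n = mone := h2
      rw [h3] at h
      unfold mone at h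
      norm_num at h
    have h2 : x ∈ {y : ℤ → Val | y n ∈ ({one} : Set Val)} := Subtype.ext h
    rw [Set.indicator_of_notMem h1, Set.indicator_of_mem h2, h]
    norm_num

variable {μ : Measure X} [IsProbabilityMeasure μ] {s : ℤ}

lemma pint (n k : ℤ) {B C : Set Val} (hC : MeasurableSet C) :
    Integrable (fun x => (μ[ob n B | Remote s]) x * (μ[ob k C | Remote s]) x) μ := by
  refine integrable_condExp.mul_bdd (c := 1) integrable_condExp.aestronglyMeasurable ?_
  filter_upwards [cb_bd μ k hC (rem_le_pi (A := Val) s)] with x hx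
  have hx' : 0 ≤ (μ[ob k C | Remote s]) x ∧ (μ[ob k C | Remote s]) x ≤ 1 := hx
  rw [Real.norm_eq_abs, abs_of_nonneg hx'.1]
  exact hx'.2

lemma oint (n k : ℤ) {B C : Set Val} (hB : MeasurableSet B) (hC : MeasurableSet C) :
    Integrable (fun x => ob n B x * ob k C x) μ := by
  refine (ob_int μ n hB).mul_bdd (c := 1) (ob_int μ k hC).aestronglyMeasurable (Eventually.of_forall fun x => ?_)
  rw [Real.norm_eq_abs, abs_of_nonneg (ob_nonneg k C x)]
  exact ob_le k C x

lemma two (hs : s = 1 ∨ s = -1) (hR : Rm μ s) {n k : ℤ} (hnk : n ≠ k) {B C : Set Val} (hB : MeasurableSet B)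
    (hC : MeasurableSet C) :
    ∫ x, (μ[ob n B | Remote s]) x * (μ[ob k C | Remote s]) x ∂μ = ∫ x, ob n B x * ob k C x ∂μ := by
  set D : ℤ → Set Val := fun h => if h = n then B else C with hD
  have hDm : ∀ h, MeasurableSet (D h) := by
    intro h
    rw [hD]
    simp only
    split_ifs
    · exact hB
    · exact hC
  have h1 := cond_indep' μ hs hR hDm ({n, k} : Finset ℤ).card {n, k} rfl
  have hDn : D n = B := by simp [hD]
  have hDk : D k = C := by simp [hD, hnk.symm]
  have h2 : ∫ x, (μ[wb {n, k} D | rem Val s]) x ∂μ = ∫ x, kb μ s {n, k} D x ∂μ := integral_congr_ae h1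
  rw [integral_condExp (rem_le_pi s)] at h2
  have h3 : ∀ x, kb μ s {n, k} D x = (μ[ob n B | Remote s]) x * (μ[ob k C | Remote s]) x := by
    intro x
    unfold kb
    rw [Finset.prod_pair hnk, hDn, hDk]
    rfl
  have h4 : ∀ x, wb {n, k} D x = ob n B x * ob k C x := by
    intro x
    unfold wb
    rw [Finset.prod_pair hnk, hDn, hDk]
  simp only [h3, h4] at h2
  exact h2.symm

lemma cm (n : ℤ) : cmean μ s n =ᵐ[μ] fun x => (μ[ob n {one} | Remote s]) x - (μ[ob n {mone} | Remote s]) x := by
  have h1 : (fun x : X => (x n : ℝ)) = ob n {one} - ob n {mone} := funext (coord n)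
  unfold cmean
  rw [h1]
  exact condExp_sub (ob_int μ n (measurableSet_singleton _)) (ob_int μ n (measurableSet_singleton _)) _

lemma cm_mul (hs : s = 1 ∨ s = -1) (hR : Rm μ s) {n k : ℤ} (hnk : n ≠ k) :
    ∫ x, cmean μ s n x * cmean μ s k x ∂μ = ∫ x : X, (x n : ℝ) * (x k : ℝ) ∂μ := by
  have m1 := measurableSet_singleton one
  have m2 := measurableSet_singleton mone
  have e1 : ∫ x, cmean μ s n x * cmean μ s k x ∂μ =
      ∫ x, (((μ[ob n {one} | Remote s]) x * (μ[ob k {one} | Remote s]) x -
        (μ[ob n {one} | Remote s]) x * (μ[ob k {mone} | Remote s]) x) -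
        ((μ[ob n {mone} | Remote s]) x * (μ[ob k {one} | Remote s]) x -
        (μ[ob n {mone} | Remote s]) x * (μ[ob k {mone} | Remote s]) x)) ∂μ := by
    apply integral_congr_ae
    filter_upwards [cm (μ := μ) (s := s) n, cm (μ := μ) (s := s) k] with x x1 x2
    rw [x1, x2]
    ring
  have e2 : ∫ x : X, (x n : ℝ) * (x k : ℝ) ∂μ =
      ∫ x : X, ((ob n {one} x * ob k {one} x - ob n {one} x * ob k {mone} x) -
        (ob n {mone} x * ob k {one} x - ob n {mone} x * ob k {mone} x)) ∂μ := by
    congr 1
    funext x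
    rw [coord n x, coord k x]
    ring
  have j1 : Integrable (fun x => (μ[ob n {one} | Remote s]) x * (μ[ob k {one} | Remote s]) x -
      (μ[ob n {one} | Remote s]) x * (μ[ob k {mone} | Remote s]) x) μ := (pint n k m1).sub (pint n k m2)
  have j2 : Integrable (fun x => (μ[ob n {mone} | Remote s]) x * (μ[ob k {one} | Remote s]) x -
      (μ[ob n {mone} | Remote s]) x * (μ[ob k {mone} | Remote s]) x) μ := (pint n k m1).sub (pint n k m2)
  have j3 : Integrable (fun x => ob n {one} x * ob k {one} x - ob n {one} x * ob k {mone} x) μ :=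
    (oint n k m1 m1).sub (oint n k m1 m2)
  have j4 : Integrable (fun x => ob n {mone} x * ob k {one} x - ob n {mone} x * ob k {mone} x) μ :=
    (oint n k m2 m1).sub (oint n k m2 m2)
  rw [e1, e2, integral_sub j1 j2,
    integral_sub (pint n k m1) (pint n k m2), integral_sub (pint n k m1) (pint n k m2),
    integral_sub j3 j4,
    integral_sub (oint n k m1 m1) (oint n k m1 m2), integral_sub (oint n k m2 m1) (oint n k m2 m2),
    two hs hR hnk m1 m1, two hs hR hnk m1 m2, two hs hR hnk m2 m1, two hs hR hnk m2 m2]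

lemma cm_shift (hμ : Stat μ) (hs : s = 1 ∨ s = -1) (hR : Rm μ s) (n : ℤ) :
    cmean μ s n =ᵐ[μ] fun x => cmean μ s 0 (shift n x) := by
  have h1 := stat_law μ hμ hs hR n (measurableSet_singleton one)
  have h2 := stat_law μ hμ hs hR n (measurableSet_singleton mone)
  have h3 := (hμ n).quasiMeasurePreserving.ae (cm (μ := μ) (s := s) 0)
  filter_upwards [cm (μ := μ) (s := s) n, h1, h2, h3] with x x1 x2 x3 x4
  have x2' : (μ[ob n {one} | Remote s]) x = (μ[ob 0 {one} | Remote s]) (shift n x) := x2
  have x3' : (μ[ob n {mone} | Remote s]) x = (μ[ob 0 {mone} | Remote s]) (shift n x) := x3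
  have x4' : cmean μ s 0 (shift n x) = (μ[ob 0 {one} | Remote s]) (shift n x) -
    (μ[ob 0 {mone} | Remote s]) (shift n x) := x4
  rw [x1, x2', x3', x4']

lemma cm_bd (n : ℤ) : ∀ᵐ x ∂μ, |cmean μ s n x| ≤ 1 := by
  filter_upwards [cm (μ := μ) (s := s) n, cb_bd μ n (measurableSet_singleton one) (rem_le_pi (A := Val) s),
    cb_bd μ n (measurableSet_singleton mone) (rem_le_pi (A := Val) s)] with x x1 x2 x3
  have x2' : 0 ≤ (μ[ob n {one} | Remote s]) x ∧ (μ[ob n {one} | Remote s]) x ≤ 1 := x2
  have x3' : 0 ≤ (μ[ob n {mone} | Remote s]) x ∧ (μ[ob n {mone} | Remote s]) x ≤ 1 := x3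
  rw [x1, abs_le]
  constructor <;> linarith [x2'.1, x2'.2, x3'.1, x3'.2]

/-- no Lebesgue component: the conditional means vanish -/
lemma mean_zero (hμ : Stat μ) (hs : s = 1 ∨ s = -1) (hR : Rm μ s)
    (ho : ∀ n k : ℤ, n ≠ k → ∫ x : X, (x n : ℝ) * (x k : ℝ) ∂μ = 0) (hN : NoLebesgue μ (Remote s)) :
    cmean μ s 0 =ᵐ[μ] 0 := by
  have hm : Measurable[Remote s] (cmean μ s 0) := stronglyMeasurable_condExp.measurable
  set b : X → ℝ := fun x => max (-1) (min 1 (cmean μ s 0 x)) with hb
  have hbm : Measurable[Remote s] b := by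
    have h1 : Measurable fun t : ℝ => max (-1) (min 1 t) := by fun_prop
    exact h1.comp hm
  have hb1 : ∀ x, |b x| ≤ 1 := by
    intro x
    rw [abs_le]
    exact ⟨le_max_left _ _, max_le (by norm_num) (min_le_left _ _)⟩
  have hbe : b =ᵐ[μ] cmean μ s 0 := by
    filter_upwards [cm_bd (μ := μ) (s := s) 0] with x hx
    rw [abs_le] at hx
    rw [hb]
    simp only
    rw [min_eq_right hx.2, max_eq_right hx.1]
  have h2 := hN b hbm hb1 (fun n hn => by
    have e1 : ∫ x, b (shift n x) * b x ∂μ = ∫ x, cmean μ s n x * cmean μ s 0 x ∂μ := by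
      apply integral_congr_ae
      filter_upwards [hbe, (hμ n).quasiMeasurePreserving.ae hbe, cm_shift hμ hs hR n] with x x1 x2 x3
      have x2' : b (shift n x) = cmean μ s 0 (shift n x) := x2
      rw [x1, x2', x3]
    exact e1.trans ((cm_mul hs hR hn).trans (ho n 0 hn)))
  exact hbe.symm.trans h2

lemma bsq {b : X → ℝ} (hb : Measurable b) (hb1 : ∀ x, |b x| ≤ 1)
    (h : ∀ ε : ℝ, 0 < ε → ∫ x, b x * b x ∂μ ≤ ε) : b =ᵐ[μ] 0 := by
  have h0 : ∫ x, b x * b x ∂μ = 0 := by
    apply le_antisymm (le_of_forall_pos_le_add fun ε hε => by rw [zero_add]; exact h ε hε)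
    exact integral_nonneg fun x => mul_self_nonneg _
  have hi : Integrable (fun x => b x * b x) μ := by
    refine Integrable.of_bound (hb.mul hb).aestronglyMeasurable 1 (Eventually.of_forall fun x => ?_)
    rw [norm_mul, Real.norm_eq_abs]
    exact mul_le_one₀ (hb1 x) (abs_nonneg _) (hb1 x)
  have h1 := (integral_eq_zero_iff_of_nonneg (fun x => mul_self_nonneg _) hi).1 h0
  filter_upwards [h1] with x hx
  exact mul_self_eq_zero.1 hx

/-- returning functions: no Lebesgue component -/
lemma returns_noleb (hr : Returns μ (Remote s)) : NoLebesgue μ (Remote s) := by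
  intro b hb hb1 h0
  have hbm : Measurable b := hb.mono (rem_le_pi (A := Val) s) le_rfl
  apply bsq hbm hb1
  intro ε hε
  obtain ⟨n, hn, h1⟩ := hr b hb hb1 ε hε
  have hbn : Measurable fun x : X => b (shift n x) := hbm.comp (sh_meas n)
  have i1 : Integrable (fun x => b x * b x) μ := by
    refine Integrable.of_bound (hbm.mul hbm).aestronglyMeasurable 1 (Eventually.of_forall fun x => ?_)
    rw [norm_mul, Real.norm_eq_abs]
    exact mul_le_one₀ (hb1 x) (abs_nonneg _) (hb1 x)
  have i2 : Integrable (fun x => b (shift n x) * b x) μ := by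
    refine Integrable.of_bound (hbn.mul hbm).aestronglyMeasurable 1 (Eventually.of_forall fun x => ?_)
    rw [norm_mul, Real.norm_eq_abs, Real.norm_eq_abs]
    exact mul_le_one₀ (hb1 _) (abs_nonneg _) (hb1 x)
  have i3 : Integrable (fun x => |b (shift n x) - b x|) μ := by
    refine Integrable.of_bound (hbn.sub hbm).abs.aestronglyMeasurable 2 (Eventually.of_forall fun x => ?_)
    rw [Real.norm_eq_abs, abs_abs]
    have := abs_sub (b (shift n x)) (b x)
    linarith [hb1 x, hb1 (shift n x)]
  have e1 : ∫ x, b x * b x ∂μ = ∫ x, (b x * b x - b (shift n x) * b x) ∂μ := by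
    rw [integral_sub i1 i2, h0 n hn, sub_zero]
  rw [e1]
  refine le_trans (integral_mono (i1.sub i2) i3 fun x => ?_) h1
  show b x * b x - b (shift n x) * b x ≤ |b (shift n x) - b x|
  have h2 : b x * b x - b (shift n x) * b x = -((b (shift n x) - b x) * b x) := by ring
  rw [h2]
  refine (neg_le_abs _).trans ?_
  rw [abs_mul]
  exact mul_le_of_le_one_right (abs_nonneg _) (hb1 x)

/-- trivial remote past: returning functions -/
lemma triv_returns (hμ : Stat μ) (htriv : ∀ S : Set X, MeasurableSet[Remote s] S → μ S = 0 ∨ μ S = 1) :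
    Returns μ (Remote s) := by
  intro b hb hb1 ε hε
  have hle : Remote s ≤ MeasurableSpace.pi := rem_le_pi (A := Val) s
  have hbm : Measurable b := hb.mono hle le_rfl
  have hbi : Integrable b μ := Integrable.of_bound hbm.aestronglyMeasurable 1 (Eventually.of_forall fun x => by
    rw [Real.norm_eq_abs]
    exact hb1 x)
  have hconst : μ[b | Remote s] =ᵐ[μ] fun _ => ∫ x, b x ∂μ := by
    symm
    apply ae_eq_condExp_of_forall_setIntegral_eq hle hbi
    · intro S _ _
      exact (integrable_const _).integrableOn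
    · intro S hS _
      rcases htriv S hS with h0 | h1
      · rw [Measure.restrict_eq_zero.2 h0, integral_zero_measure, integral_zero_measure]
      · have h2 : μ.restrict S = μ := by
          apply Measure.restrict_eq_self_of_ae_mem
          rw [← prob_compl_eq_zero_iff (hle S hS)] at h1
          exact measure_eq_zero_iff_ae_notMem.1 h1 |>.mono fun x hx => by simpa using hx
        rw [h2, integral_const, probReal_univ, one_smul]
    · exact stronglyMeasurable_const.aestronglyMeasurable
  have hbs : StronglyMeasurable[Remote s] b := hb.stronglyMeasurable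
  rw [condExp_of_stronglyMeasurable hle hbs hbi] at hconst
  refine ⟨1, one_ne_zero, ?_⟩
  have h1 := (hμ 1).quasiMeasurePreserving.ae hconst
  have h2 : ∫ x, |b (shift 1 x) - b x| ∂μ = ∫ x : X, (0 : ℝ) ∂μ := by
    apply integral_congr_ae
    filter_upwards [hconst, h1] with x x1 x2
    have x2' : b (shift 1 x) = ∫ x, b x ∂μ := x2
    rw [x1, x2', sub_self, abs_zero]
  rw [h2, integral_zero]
  exact hε.le

instance coin_prob : IsProbabilityMeasure coin := by
  constructor
  unfold coin
  rw [Measure.smul_apply, Measure.add_apply, measure_univ, measure_univ, smul_eq_mul]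
  have : (1 : ENNReal) + 1 = 2 := by norm_num
  rw [this, one_div]
  exact ENNReal.inv_mul_cancel (by norm_num) (by norm_num)

lemma coin_real {C : Set Val} (hC : MeasurableSet C) :
    coin.real C = (C.indicator (fun _ => (1 : ℝ)) one + C.indicator (fun _ => (1 : ℝ)) mone) / 2 := by
  unfold coin Measure.real
  rw [Measure.smul_apply, Measure.add_apply, Measure.dirac_apply' _ hC, Measure.dirac_apply' _ hC, smul_eq_mul]
  change (1 / 2 * (C.indicator (fun _ => (1 : ENNReal)) one + C.indicator (fun _ => (1 : ENNReal)) mone)).toReal = _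
  by_cases h1 : one ∈ C
  · by_cases h2 : mone ∈ C
    · rw [Set.indicator_of_mem h1, Set.indicator_of_mem h2, Set.indicator_of_mem (a := one) h1,
        Set.indicator_of_mem (a := mone) h2]
      norm_num
    · rw [Set.indicator_of_mem h1, Set.indicator_of_notMem h2, Set.indicator_of_mem (a := one) h1,
        Set.indicator_of_notMem (a := mone) h2]
      norm_num
  · by_cases h2 : mone ∈ C
    · rw [Set.indicator_of_notMem h1, Set.indicator_of_mem h2, Set.indicator_of_notMem (a := one) h1,
        Set.indicator_of_mem (a := mone) h2]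
      norm_num
    · rw [Set.indicator_of_notMem h1, Set.indicator_of_notMem h2, Set.indicator_of_notMem (a := one) h1,
        Set.indicator_of_notMem (a := mone) h2]
      norm_num

/-- vanishing conditional means: independent fair signs -/
lemma zero_fair (hμ : Stat μ) (hs : s = 1 ∨ s = -1) (hR : Rm μ s)
    (hpm : ∀ᵐ x : X ∂μ, (x 0 : ℝ) = 1 ∨ (x 0 : ℝ) = -1) (h0 : cmean μ s 0 =ᵐ[μ] 0) : μ = fair := by
  have hle : Remote s ≤ MeasurableSpace.pi := rem_le_pi (A := Val) s
  have m1 := measurableSet_singleton one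
  have m2 := measurableSet_singleton mone
  have i1 := ob_int μ 0 m1
  have i2 := ob_int μ 0 m2
  have hval : ∀ᵐ x : X ∂μ, x 0 = one ∨ x 0 = mone := by
    filter_upwards [hpm] with x hx
    rcases hx with h | h
    · left
      exact Subtype.ext h
    · right
      exact Subtype.ext h
  have hne : one ≠ mone := by
    intro h
    have := congrArg Subtype.val h
    unfold one mone at this
    norm_num at this
  have hdec : ∀ (C : Set Val), ob 0 C =ᵐ[μ] (C.indicator (fun _ => (1 : ℝ)) one) • ob 0 {one} +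
      (C.indicator (fun _ => (1 : ℝ)) mone) • ob 0 {mone} := by
    intro C
    filter_upwards [hval] with x hx
    rw [Pi.add_apply, Pi.smul_apply, Pi.smul_apply, smul_eq_mul, smul_eq_mul]
    have ho : ∀ D : Set Val, ob 0 D x = D.indicator (fun _ => (1 : ℝ)) (x 0) := fun D => rfl
    rw [ho, ho, ho]
    rcases hx with h | h
    · rw [h, Set.indicator_of_mem (Set.mem_singleton one), Set.indicator_of_notMem (s := {mone}) (a := one)
        (fun hh => hne hh)]
      ring
    · rw [h, Set.indicator_of_mem (Set.mem_singleton mone), Set.indicator_of_notMem (s := {one}) (a := mone)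
        (fun hh => hne hh.symm)]
      ring
  have hA : ∀ᵐ x ∂μ, (μ[ob 0 {one} | Remote s]) x = 1 / 2 ∧ (μ[ob 0 {mone} | Remote s]) x = 1 / 2 := by
    have e1 : μ[ob 0 {one} + ob 0 {mone} | Remote s] =ᵐ[μ] fun _ => 1 := by
      have e2 : ob 0 {one} + ob 0 {mone} =ᵐ[μ] fun _ => (1 : ℝ) := by
        have h3 := hdec Set.univ
        filter_upwards [h3] with x hx
        simp only [Set.indicator_univ, one_smul] at hx
        rw [← hx]
        unfold ob
        simp
      have e3 := condExp_congr_ae (m := Remote s) e2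
      rw [condExp_const hle] at e3
      exact e3
    have e4 := condExp_add i1 i2 (Remote s)
    filter_upwards [e1, e4, cm (μ := μ) (s := s) 0, h0] with x x1 x2 x3 x4
    rw [x1] at x2
    rw [x4] at x3
    have x2' : (1 : ℝ) = (μ[ob 0 {one} | Remote s]) x + (μ[ob 0 {mone} | Remote s]) x := x2
    have x3' : (0 : ℝ) = (μ[ob 0 {one} | Remote s]) x - (μ[ob 0 {mone} | Remote s]) x := x3
    constructor <;> linarith
  have hC0 : ∀ {C : Set Val}, MeasurableSet C → μ[ob 0 C | Remote s] =ᵐ[μ] fun _ => coin.real C := by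
    intro C hC
    have e1 := condExp_congr_ae (m := Remote s) (hdec C)
    have e2 := condExp_add (i1.smul (C.indicator (fun _ => (1 : ℝ)) one))
      (i2.smul (C.indicator (fun _ => (1 : ℝ)) mone)) (Remote s)
    have e3 := condExp_smul (μ := μ) (C.indicator (fun _ => (1 : ℝ)) one) (ob 0 {one}) (Remote s)
    have e4 := condExp_smul (μ := μ) (C.indicator (fun _ => (1 : ℝ)) mone) (ob 0 {mone}) (Remote s)
    filter_upwards [e1, e2, e3, e4, hA] with x x1 x2 x3 x4 x5
    rw [x1, x2, Pi.add_apply, x3, x4, Pi.smul_apply, Pi.smul_apply, x5.1, x5.2, coin_real hC, smul_eq_mul, smul_eq_mul]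
    ring
  have hCn : ∀ (n : ℤ) {C : Set Val}, MeasurableSet C → μ[ob n C | Remote s] =ᵐ[μ] fun _ => coin.real C := by
    intro n C hC
    have e1 := stat_law μ hμ hs hR n hC
    have e2 := (hμ n).quasiMeasurePreserving.ae (hC0 hC)
    filter_upwards [e1, e2] with x x1 x2
    have x1' : (μ[ob n C | Remote s]) x = (μ[ob 0 C | Remote s]) (sh n x) := x1
    have x2' : (μ[ob 0 C | Remote s]) (sh n x) = coin.real C := x2
    rw [x1', x2']
  unfold fair
  apply Measure.eq_infinitePi
  intro H t ht
  have h1 := cond_indep' μ hs hR ht H.card H rfl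
  have h2 : ∫ x, (μ[wb H t | rem Val s]) x ∂μ = ∫ x, kb μ s H t x ∂μ := integral_congr_ae h1
  rw [integral_condExp (rem_le_pi s)] at h2
  have h3 : ∫ x, kb μ s H t x ∂μ = ∏ h ∈ H, coin.real (t h) := by
    have e1 : ∀ᵐ x ∂μ, ∀ h : ℤ, (μ[ob h (t h) | Remote s]) x = coin.real (t h) :=
      ae_all_iff.2 fun h => hCn h (ht h)
    have e2 : ∫ x, kb μ s H t x ∂μ = ∫ _x : X, ∏ h ∈ H, coin.real (t h) ∂μ := by
      apply integral_congr_ae
      filter_upwards [e1] with x hx
      unfold kb
      exact prod_congr rfl fun h _ => hx h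
    rw [e2, integral_const, probReal_univ, one_smul]
  have hm : MeasurableSet (Set.pi (H : Set ℤ) t) := MeasurableSet.pi H.countable_toSet fun h _ => ht h
  have h4 : ∫ x, wb H t x ∂μ = μ.real (Set.pi (H : Set ℤ) t) := by
    have e1 : ∀ x, wb H t x = (Set.pi (H : Set ℤ) t).indicator (fun _ => (1 : ℝ)) x := fun x => wb_ind H t x
    simp only [e1]
    rw [integral_indicator_const _ hm, smul_eq_mul, mul_one]
  rw [h4, h3] at h2
  rw [← ofReal_measureReal, h2, ENNReal.ofReal_prod_of_nonneg fun h _ => measureReal_nonneg]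
  exact prod_congr rfl fun h _ => ofReal_measureReal

/-- the zero-one law -/
lemma fair_triv (hs : s = 1 ∨ s = -1) {S : Set X} (hS : MeasurableSet[Remote s] S) : fair S = 0 ∨ fair S = 1 := by
  have hind : ProbabilityTheory.iIndepFun (fun (n : ℤ) (x : X) => x n) fair :=
    ProbabilityTheory.iIndepFun_infinitePi (P := fun _ : ℤ => coin) (X := fun _ x => x) (by fun_prop)
  have hind' : ProbabilityTheory.iIndep (fun n : ℤ => MeasurableSpace.comap (fun x : X => x n) inferInstance) fair :=
    hind
  have hle : ∀ n : ℤ, MeasurableSpace.comap (fun x : X => x n) inferInstance ≤ MeasurableSpace.pi :=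
    fun n => (measurable_pi_apply n).comap_le
  rcases hs with rfl | rfl
  · apply ProbabilityTheory.measure_zero_or_one_of_measurableSet_limsup_atBot hle hind'
    rw [atBot_basis.limsup_eq_iInf_iSup]
    have : Remote 1 = ⨅ i : ℤ, ⨅ _ : True, ⨆ a ∈ Set.Iic i, MeasurableSpace.comap (fun x : X => x a) inferInstance := by
      unfold Remote
      apply iInf_congr
      intro t
      rw [iInf_true]
      have h2 : {k : ℤ | 1 * k ≤ 1 * t} = Set.Iic t := by
        ext k
        simp
      rw [h2]
      rfl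
    rw [← this]
    exact hS
  · apply ProbabilityTheory.measure_zero_or_one_of_measurableSet_limsup_atTop hle hind'
    rw [atTop_basis.limsup_eq_iInf_iSup]
    have : Remote (-1) = ⨅ i : ℤ, ⨅ _ : True, ⨆ a ∈ Set.Ici i, MeasurableSpace.comap (fun x : X => x a) inferInstance := by
      unfold Remote
      apply iInf_congr
      intro t
      rw [iInf_true]
      have h2 : {k : ℤ | -1 * k ≤ -1 * t} = Set.Ici t := by
        ext k
        simp
      rw [h2]
      rfl
    rw [← this]
    exact hS

end main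

/-- **Theorem.** Let `f` be an aperiodic multiplicative function with values `1` and `-1`, and let `μ` be any of its
Furstenberg systems (logarithmic averages, along any sequence of scales). The following holds for the remote past
(`s = 1`) and for the remote future (`s = -1`). -/
theorem result {f : ℕ → Val} (hf : IsMult f) (ha : Aperiodic f) {μ : Measure X} (hμ : IsFurstenbergSystem f μ)
    (s : ℤ) (hs : s = 1 ∨ s = -1) :
    -- (1) the coordinates are independent given the remote past (future)
    (∀ (H : Finset ℤ) (B : ℤ → Set Val), (∀ h, MeasurableSet (B h)) →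
      μ[{x : X | ∀ h ∈ H, x h ∈ B h}.indicator (fun _ => (1 : ℝ)) | Remote s] =ᵐ[μ]
        fun x => ∏ h ∈ H, (μ[{y : X | y h ∈ B h}.indicator (fun _ => (1 : ℝ)) | Remote s]) x) ∧
    -- (2) their conditional means are pairwise orthogonal
    (∀ n k : ℤ, n ≠ k → ∫ x, cmean μ s n x * cmean μ s k x ∂μ = 0) ∧
    -- (3) the following are equivalent
    [ -- (a) the coordinates are independent fair signs
      μ = fair,
      -- (b) the remote past is trivial
      ∀ S : Set X, MeasurableSet[Remote s] S → μ S = 0 ∨ μ S = 1,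
      -- (c) every bounded function of the remote past is approximated by its translates
      Returns μ (Remote s),
      -- (d) the remote past has no Lebesgue component
      NoLebesgue μ (Remote s),
      -- (e) the conditional mean of `x 0` given the remote past is zero
      cmean μ s 0 =ᵐ[μ] 0].TFAE := by
  obtain ⟨hst, hR⟩ := facts hf hμ s
  have hprob : IsProbabilityMeasure μ := hμ.1
  have ho : ∀ n k : ℤ, n ≠ k → ∫ x : X, (x n : ℝ) * (x k : ℝ) ∂μ = 0 := fun n k hnk => ortho hf ha hμ n k hnk
  refine ⟨fun H B hB => ?_, fun n k hnk => by rw [cm_mul hs hR hnk, ho n k hnk], ?_⟩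
  · have h1 := Pool.Agent.H615.CI.cond_indep' μ hs hR hB H.card H rfl
    have h2 : Pool.Agent.H615.CI.wb H B = {x : X | ∀ h ∈ H, x h ∈ B h}.indicator (fun _ => (1 : ℝ)) :=
      funext fun x => Pool.Agent.H615.CI.wb_ind H B x
    rw [h2] at h1
    exact h1
  tfae_have 1 → 2 := by
    intro h S hS
    rw [h]
    exact fair_triv hs hS
  tfae_have 2 → 3 := fun h => triv_returns hst h
  tfae_have 3 → 4 := fun h => returns_noleb h
  tfae_have 4 → 5 := fun h => mean_zero hst hs hR ho h
  tfae_have 5 → 1 := fun h => zero_fair hst hs hR (ae_pm hf hμ 0) h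
  tfae_finish

end Pool.Agent.Results.MP_4a7640_nt.RemotePast
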