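import Pool.Agent.H484.ST.Cls

/-!
# Furstenberg systems of multiplicative functions near random signs

`SignMul f`: `f 1 = 1`, `f (m n) = f m f n` for coprime `m, n`, and `f n ∈ {1, -1}` for `n ≥ 1`
(`Pool.Agent.W257.FS.D`). `bern`: the law of independent fair signs on `ℤ → ℝ`; `IsFurst f μ`: the
probability measure `μ` is a Furstenberg system of `f` (`Pool.Agent.W257.FS.F`, `G`).

Let `e p` be independent random signs, with arbitrary laws, such that the weights
`1 - |E (e p)|` are thick: their sums `∑ (1 - |E (e p)|) / p` over the primes `N ^ η < p ≤ N` are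
large if `η` is small. This holds for fair signs at all primes, and for fair signs at a set of
primes of positive lower relative logarithmic density with arbitrary fixed signs at the other
primes. Almost surely EVERY multiplicative function with values `1` and `-1` that agrees with
`e p χ(p)` at primes of relative logarithmic density one, for some Dirichlet character `χ`,
satisfies the conclusion of Q1; the function, its values at the exceptional primes and at all
higher prime powers are arbitrary and may depend on the random signs.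
-/

set_option autoImplicit false

namespace Pool.Agent.Results.MP_4a7640_nt.StableRandomSigns

open Finset Filter MeasureTheory ProbabilityTheory
open Pool.Agent.W257.FS (SignMul IsFurst bern)

/-- the sums of `ρ p / p` over the primes `p` between `N ^ η` and `N` are large if `η` is small -/
def Thick (ρ : ℕ → ℝ) : Prop := ∀ Λ : ℝ, ∃ η : ℝ, 0 < η ∧ ∀ᶠ N : ℕ in atTop,
  Λ ≤ ∑ p ∈ (Icc 1 N).filter (fun p : ℕ => p.Prime ∧ (N : ℝ) ^ η < (p : ℝ)), ρ p / p

open Classical in
/-- `f` and `b` agree at primes of relative logarithmic density one -/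
def Near (f b : ℕ → ℂ) : Prop := Tendsto (fun X : ℕ =>
  (∑ p ∈ (Icc 1 X).filter (fun p => p.Prime ∧ f p ≠ b p), Real.log p / p) / Real.log X) atTop
    (nhds 0)

/-- `f` is aperiodic -/
def Aper (f : ℕ → ℝ) : Prop :=
  ∀ (q : ℕ) (χ : DirichletCharacter ℂ q), 1 ≤ q → ¬ Summable (fun p : Nat.Primes =>
    (1 - ((f p : ℂ) * star (χ ((p : ℕ) : ZMod q))).re) / ((p : ℕ) : ℝ))

/-- multiplicative functions with values in the closed unit disc -/
def MulDisc (f : ℕ → ℂ) : Prop :=
  f 1 = 1 ∧ (∀ m n : ℕ, Nat.Coprime m n → f (m * n) = f m * f n) ∧ ∀ n, ‖f n‖ ≤ 1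

theorem near_zd' {f b : ℕ → ℂ} (h : Near f b) {S : Set ℕ} (hS : ∀ p, f p ≠ b p ↔ p ∈ S) :
    Pool.Agent.H484.ST.ZD S := by
  classical
  refine h.congr fun X => ?_
  congr 1
  exact sum_congr (filter_congr fun p _ => and_congr_right fun _ => hS p) fun _ _ => rfl

theorem near_zd {f b : ℕ → ℂ} (h : Near f b) : Pool.Agent.H484.ST.ZD {p | f p ≠ b p} :=
  near_zd' h fun _ => Iff.rfl

/-- (1) the conclusion of Q1 for all functions near the random signs, with frequencies in natural
density; (2) a quantitative version for functions with values in the unit disc, with arbitrary fixed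
weights; (3) weights of positive lower relative logarithmic density are thick -/
theorem result :
    (∀ {Ω : Type} [MeasurableSpace Ω] (P : Measure Ω) [IsProbabilityMeasure P] (e : ℕ → Ω → ℝ),
      (∀ p, Measurable (e p)) → (∀ p ω, e p ω = 1 ∨ e p ω = -1) → iIndepFun e P →
      Thick (fun p => 1 - |∫ ω, e p ω ∂P|) →
      ∀ᵐ ω ∂P, ∀ f : ℕ → ℝ, SignMul f →
        (∃ (q : ℕ) (χ : DirichletCharacter ℂ q),
          Near (fun n => (f n : ℂ)) (fun p => (e p ω : ℂ) * χ (p : ZMod q))) →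
        Aper f ∧
        (∀ (H : Finset ℕ) (σ : ℕ → ℝ), (∀ a, σ a = 1 ∨ σ a = -1) →
          Tendsto (fun N : ℕ =>
            (((Icc 1 N).filter fun n => ∀ a ∈ H, f (n + a) = σ a).card : ℝ) / N) atTop
            (nhds ((1 / 2) ^ H.card))) ∧
        ∀ μ, IsFurst f μ ↔ μ = bern) ∧
    (∀ ρ : ℕ → ℝ, Thick ρ → ∀ (k : ℕ) (ε : ℝ), 1 ≤ k → 0 < ε → ∃ δ : ℝ, 0 < δ ∧
      ∀ {Ω : Type} [MeasurableSpace Ω] (P : Measure Ω) [IsProbabilityMeasure P] (e : ℕ → Ω → ℝ),
        (∀ p, Measurable (e p)) → (∀ p ω, e p ω = 1 ∨ e p ω = -1) → iIndepFun e P →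
        (∀ p, 0 ≤ ρ p ∧ ρ p ≤ 1 - |∫ ω, e p ω ∂P|) → ∀ w : ℕ → ℂ, (∀ n, ‖w n‖ ≤ 1) →
        ∀ᵐ ω ∂P, ∀ (h : Fin k → ℕ) (q : ℕ) (χ : Fin k → DirichletCharacter ℂ q)
          (f : Fin k → ℕ → ℂ), Function.Injective h → (∀ t, MulDisc (f t)) →
          (∀ t, ∀ᶠ X : ℕ in atTop, ∑ p ∈ (Icc 1 X).filter Nat.Prime,
            ‖f t p - (e p ω : ℂ) * χ t (p : ZMod q)‖ * (Real.log p / p) ≤ δ * Real.log X) →
          ∀ᶠ N : ℕ in atTop, ‖∑ n ∈ Icc 1 N, w n * ∏ t, f t (n + h t)‖ ≤ ε * N) ∧
    (∀ ρ : ℕ → ℝ, (∀ p, 0 ≤ ρ p ∧ ρ p ≤ 1) →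
      (∃ c : ℝ, 0 < c ∧ ∀ᶠ X : ℕ in atTop, c * Real.log X ≤
        ∑ p ∈ (Icc 1 X).filter Nat.Prime, ρ p * (Real.log p / p)) → Thick ρ) := by
  refine ⟨?_, ?_, ?_⟩
  · intro Ω _ P _ e hm he hind hT
    filter_upwards [Pool.Agent.H484.ST.cz_as (P := P) hm he hind hT,
      Pool.Agent.H484.ST.aper_as (P := P) hm he hind hT] with ω h1 h2 f hf hq
    obtain ⟨q, χ, hnear'⟩ := hq
    have hnear := near_zd hnear'
    have hcz := h1 f q χ hf hnear
    exact ⟨h2 f q χ hf hnear, fun H σ hσ => Pool.Agent.H484.ST.freq_of_cz hf hcz H σ hσ,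
      Pool.Agent.H484.ST.furst_of_cz hf hcz⟩
  · intro ρ hT k ε hk hε
    have hk0 : (0 : ℝ) < k := by exact_mod_cast (show 0 < k by omega)
    obtain ⟨η, hη, hηN⟩ := hT (200 / ε)
    refine ⟨η * ε / (32 * k), by positivity, ?_⟩
    intro Ω _ P _ e hm he hind hρ w hw
    have he1 : ∀ p ω, ‖((e p ω : ℝ) : ℂ)‖ = 1 := by
      intro p ω
      rw [Complex.norm_real]
      rcases he p ω with h | h <;> rw [h] <;> simp
    have key : ∀ᵐ ω ∂P, ∀ (h : Fin k → ℕ) (q : ℕ) (χ : Fin k → DirichletCharacter ℂ q),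
        Function.Injective h → ∀ f : Fin k → ℕ → ℂ, (∀ t, Pool.Agent.H484.ST.Mult (f t)) →
        (∀ t n, ‖f t n‖ ≤ 1) →
        (∀ t, ∀ᶠ X : ℕ in atTop, ∑ p ∈ (Icc 1 X).filter Nat.Prime,
          ‖f t p - (e p ω : ℂ) * χ t (p : ZMod q)‖ * (Real.log p / p) ≤
            η * ε / (32 * k) * Real.log X) →
        ∀ᶠ N : ℕ in atTop, ‖∑ n ∈ Icc 1 N, w n * ∏ t, f t (n + h t)‖ ≤ ε * N := by
      refine ae_all_iff.2 fun h => ae_all_iff.2 fun q => ?_
      have := Pool.Agent.H484.ST.char_count q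
      refine ae_all_iff.2 fun χ => ?_
      by_cases hinj : Function.Injective h
      swap
      · exact Eventually.of_forall fun ω h => absurd h hinj
      have hB : ∀ (t : Fin k) (p : ℕ) (ω : Ω), ‖((e p ω : ℝ) : ℂ) * χ t (p : ZMod q)‖ ≤ 1 := by
        intro t p ω
        rw [norm_mul, he1, one_mul]
        exact Pool.Agent.H484.ST.char_norm _ p
      have h1 := Pool.Agent.H484.ST.as_eps' (P := P) hk hε hη hηN
        (fun (t : Fin k) p ω => ((e p ω : ℝ) : ℂ) * χ t (p : ZMod q)) h ⟨0, by omega⟩ w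
        (fun t p => (Complex.measurable_ofReal.comp (hm p)).mul measurable_const) hB
        (by
          have h2 := hind.comp (fun p (x : ℝ) (t : Fin k) => ((x : ℝ) : ℂ) * χ t (p : ZMod q))
            fun p => measurable_pi_lambda _ fun t => Complex.measurable_ofReal.mul measurable_const
          exact h2)
        hinj (fun p => (hρ p).1) (fun p => by
          have := abs_nonneg (∫ ω, e p ω ∂P)
          linarith [(hρ p).2]) (fun p _ => by
          have e5 : ∫ ω, ((e p ω : ℝ) : ℂ) ∂P = ((∫ ω, e p ω ∂P : ℝ) : ℂ) := integral_ofReal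
          rw [integral_mul_const, norm_mul, e5]
          refine (mul_le_of_le_one_right (norm_nonneg _)
            (Pool.Agent.H484.ST.char_norm _ p)).trans ?_
          rw [Complex.norm_real, Real.norm_eq_abs]
          linarith [(hρ p).2]) hw
      filter_upwards [h1] with ω hω _ f hf hf1 hcl
      exact hω f hf hf1 hcl
    filter_upwards [key] with ω hω h q χ f hinj hf hcl
    exact hω h q χ hinj f (fun t => ⟨(hf t).1, (hf t).2.1⟩) (fun t => (hf t).2.2) hcl
  · intro ρ hρ hc
    exact Pool.Agent.H484.ST.thick_of_density (fun p => (hρ p).1) (fun p => (hρ p).2) hc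

end Pool.Agent.Results.MP_4a7640_nt.StableRandomSigns
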